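import Pool.Agent.P.MP_dad03b_lc.KMain

namespace Pool.Agent.Results.MP_dad03b_lc.KroneckerProducts

theorem result (ε : ℝ) (hε : 0 < ε) : ∃ c : ℝ, 0 < c ∧ ∃ n₀ : ℕ,
    ∀ (k : ℕ) (m : Fin k → ℕ) (M : ∀ i, Matrix (Fin (m i)) (Fin (m i)) ℚ) (n : ℝ),
    n = ∏ i, (m i : ℝ) → (n₀ : ℝ) ≤ n →
    (∀ i, (m i : ℝ) ^ 6 ≤ Real.log n ∨
      ∃ (F : Type) (_ : Field F) (_ : Fintype F) (_ : DecidableEq F) (e : Fin (m i) ≃ Unit ⊕ F),
        Fintype.card F % 4 = 3 ∧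
        M i = (1 + Matrix.fromBlocks 0 (Matrix.of fun _ _ => 1) (Matrix.of fun _ _ => -1)
          (Matrix.of fun x y => (quadraticChar F (x - y) : ℚ)) :
            Matrix (Unit ⊕ F) (Unit ⊕ F) ℚ).submatrix e e) →
    ∃ Z : Matrix (∀ i, Fin (m i)) (∀ i, Fin (m i)) ℚ,
      (((Matrix.of fun x y : ∀ i, Fin (m i) => ∏ i, M i (x i) (y i)) - Z).rank : ℝ) ≤
        min (n * Real.exp (-(c * Real.log n ^ (1 / 6 : ℝ)))) (n / Real.log (Real.log n)) ∧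
      ((Finset.univ.filter fun p : (∀ i, Fin (m i)) × (∀ i, Fin (m i)) => Z p.1 p.2 ≠ 0).card : ℝ) <
        n ^ (1 + ε) := by
  obtain ⟨c, hc, n₀, H⟩ := Pool.Agent.P.MP_dad03b_lc.kron_main ε hε
  refine ⟨c, hc, n₀, fun k m M n hn h₀ hM => H k m M n hn h₀ fun i => (hM i).imp_right ?_⟩
  rintro ⟨F, _, _, _, e, -, he⟩
  exact ⟨F, _, _, _, e, he⟩

/-- The family printed in the problem file: free factors of order at most a fixed `d`. -/
theorem bounded_factors (ε : ℝ) (hε : 0 < ε) (d : ℕ) : ∃ n₀ : ℕ,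
    ∀ (k : ℕ) (m : Fin k → ℕ) (M : ∀ i, Matrix (Fin (m i)) (Fin (m i)) ℚ) (n : ℝ),
    n = ∏ i, (m i : ℝ) → (n₀ : ℝ) ≤ n →
    (∀ i, m i ≤ d ∨
      ∃ (F : Type) (_ : Field F) (_ : Fintype F) (_ : DecidableEq F) (e : Fin (m i) ≃ Unit ⊕ F),
        Fintype.card F % 4 = 3 ∧
        M i = (1 + Matrix.fromBlocks 0 (Matrix.of fun _ _ => 1) (Matrix.of fun _ _ => -1)
          (Matrix.of fun x y => (quadraticChar F (x - y) : ℚ)) :
            Matrix (Unit ⊕ F) (Unit ⊕ F) ℚ).submatrix e e) →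
    ∃ Z : Matrix (∀ i, Fin (m i)) (∀ i, Fin (m i)) ℚ,
      (((Matrix.of fun x y : ∀ i, Fin (m i) => ∏ i, M i (x i) (y i)) - Z).rank : ℝ) ≤
        n / Real.log (Real.log n) ∧
      ((Finset.univ.filter fun p : (∀ i, Fin (m i)) × (∀ i, Fin (m i)) => Z p.1 p.2 ≠ 0).card : ℝ) <
        n ^ (1 + ε) := by
  obtain ⟨c, -, n₀, H⟩ := result ε hε
  refine ⟨max n₀ ⌈Real.exp (d ^ 6)⌉₊, fun k m M n hn h₀ hM => ?_⟩
  have h1 : (n₀ : ℝ) ≤ n := le_trans (by exact_mod_cast le_max_left _ _) h₀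
  have h2 : Real.exp (d ^ 6) ≤ n :=
    (Nat.le_ceil _).trans (le_trans (by exact_mod_cast le_max_right _ _) h₀)
  have h3 : (d : ℝ) ^ 6 ≤ Real.log n :=
    (Real.le_log_iff_exp_le ((Real.exp_pos _).trans_le h2)).2 h2
  obtain ⟨Z, h4, h5⟩ := H k m M n hn h1 fun i => (hM i).imp_left fun h =>
    le_trans (by exact_mod_cast Nat.pow_le_pow_left h 6) h3
  exact ⟨Z, h4.trans (min_le_right _ _), h5⟩

/-- One factor: question Q1 as posed, deduced from `result`. -/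
theorem one_factor (ε : ℝ) (hε : 0 < ε) : ∃ q₀ : ℕ,
    ∀ (F : Type) [Field F] [Fintype F] [DecidableEq F],
    Fintype.card F % 4 = 3 → q₀ ≤ Fintype.card F →
    ∃ Z : Matrix (Unit ⊕ F) (Unit ⊕ F) ℚ,
      ((1 + Matrix.fromBlocks 0 (Matrix.of fun _ _ => 1) (Matrix.of fun _ _ => -1)
          (Matrix.of fun x y => (quadraticChar F (x - y) : ℚ)) - Z).rank : ℝ) ≤
        ((Fintype.card F : ℝ) + 1) / Real.log (Real.log ((Fintype.card F : ℝ) + 1)) ∧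
      ((Finset.univ.filter fun p : (Unit ⊕ F) × (Unit ⊕ F) => Z p.1 p.2 ≠ 0).card : ℝ) <
        ((Fintype.card F : ℝ) + 1) ^ (1 + ε) := by
  obtain ⟨c, -, n₀, H⟩ := result ε hε
  refine ⟨n₀, fun F _ _ _ h4 hq => ?_⟩
  let e : Fin (Fintype.card F + 1) ≃ Unit ⊕ F :=
    (Fintype.equivFinOfCardEq (by simp [add_comm])).symm
  obtain ⟨Z, h1, h2⟩ := H 1 (fun _ => Fintype.card F + 1)
    (fun _ => (Pool.Agent.P.MP_dad03b_lc.paley F).submatrix e e) (Fintype.card F + 1) (by simp)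
    (by exact_mod_cast hq.trans (Nat.le_succ _)) fun _ => Or.inr ⟨F, _, _, _, e, h4, rfl⟩
  let j : Unit ⊕ F ≃ (Fin 1 → Fin (Fintype.card F + 1)) := e.symm.trans (Equiv.funUnique _ _).symm
  refine ⟨Z.submatrix j j, le_trans (le_of_eq ?_) (h1.trans (min_le_right _ _)),
    lt_of_eq_of_lt ?_ h2⟩
  · refine Nat.cast_inj.2 (Eq.trans (congrArg Matrix.rank ?_) (Matrix.rank_submatrix _ j j))
    ext x y
    have hj : ∀ z, e (j z 0) = z := fun z => e.apply_symm_apply z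
    simp only [Matrix.submatrix_apply, Matrix.sub_apply, Matrix.of_apply, Fin.prod_univ_one, hj]
    rfl
  · congr 1
    exact Finset.card_equiv (j.prodCongr j) (by simp)

end Pool.Agent.Results.MP_dad03b_lc.KroneckerProducts
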