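import Pool.Agent.P.MP_dad03b_lc.Main

namespace Pool.Agent.Results.MP_dad03b_lc.NotRigid

theorem result (ε : ℝ) (hε : 0 < ε) : ∃ γ : ℝ, 0 < γ ∧ ∃ q₀ : ℕ,
    ∀ (F : Type) [Field F] [Fintype F] [DecidableEq F],
    Fintype.card F % 4 = 3 → q₀ ≤ Fintype.card F →
    ∃ Z : Matrix (Unit ⊕ F) (Unit ⊕ F) ℚ,
      ((1 + Matrix.fromBlocks 0 (Matrix.of fun _ _ => 1) (Matrix.of fun _ _ => -1)
          (Matrix.of fun x y => (quadraticChar F (x - y) : ℚ)) - Z).rank : ℝ) ≤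
        min (((Fintype.card F : ℝ) + 1) ^ (1 - γ))
          (((Fintype.card F : ℝ) + 1) / Real.log (Real.log ((Fintype.card F : ℝ) + 1))) ∧
      ((Finset.univ.filter fun p : (Unit ⊕ F) × (Unit ⊕ F) => Z p.1 p.2 ≠ 0).card : ℝ) <
        ((Fintype.card F : ℝ) + 1) ^ (1 + ε) := by
  obtain ⟨γ, hγ, q₀, H⟩ := Pool.Agent.P.MP_dad03b_lc.main ε hε
  exact ⟨γ, hγ, q₀, fun F _ _ _ _ hq => H F hq⟩

end Pool.Agent.Results.MP_dad03b_lc.NotRigid
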